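import Pool.Agent.Y111.OR.Cat
import Pool.Agent.TH133.Dual

/-!
# Correspondences which intertwine classes with the hard Lefschetz property
-/

open CategoryTheory AlgebraicGeometry

universe u v w

set_option linter.unusedSectionVars false

namespace Pool.Agent.Q94.OL

open Pool.Agent.H914 Pool.Agent.H914.VarClass Pool.Agent.H914.VarClass.Obj Pool.Agent.W492.BB
  Pool.Agent.W550.Corr Pool.Agent.TH133 Pool.Agent.Y111.OR

variable {k : Type u} [Field k] {𝒱 : VarClass k} {C : TheoryData.{u, v, 0} 𝒱 ℚ}
  {K : Type w} [Field K] (H : WeilTheoryData.{u, v, w} C K)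

/-- The divisor class `η` has the hard Lefschetz property for the cohomology of `X`:
multiplication by `η ^ j` is bijective from `H^(dim X - j)(X)` to `H^(dim X + j)(X)`, `j ≥ 0`. -/
structure HardLefschetz (X : 𝒱.Obj) (η : C.A X) : Prop where
  inj : ∀ (j : ℕ) (x : H.A X), H.Deg ((X.dim : ℤ) - j) x → H.mul (H.cl η ^ j) x = 0 → x = 0
  surj : ∀ (j : ℕ) (y : H.A X), H.Deg ((X.dim : ℤ) + j) y →
    ∃ x, H.Deg ((X.dim : ℤ) - j) x ∧ H.mul (H.cl η ^ j) x = y

variable [hC : IsChowProj C] [hH : IsWeilProj H]

section lead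

variable {a b c : CC C}

/-- The cohomology class of a correspondence. -/
noncomputable def clc (f : a ⟶ b) : H.A (a.X.prod b.X) := H.cl (X := a.X.prod b.X) f

omit hH in
lemma clc_add (f g : a ⟶ b) : clc H (f + g) = clc H f + clc H g :=
  map_add (H.cl (X := a.X.prod b.X)) f g

omit hH in
lemma clc_sub (f g : a ⟶ b) : clc H (f - g) = clc H f - clc H g :=
  map_sub (H.cl (X := a.X.prod b.X)) f g

omit hH in
lemma clc_zero : clc H (0 : a ⟶ b) = 0 := map_zero (H.cl (X := a.X.prod b.X))

lemma clc_comp_left {f f' : a ⟶ b} (h : clc H f = clc H f') (g : b ⟶ c) :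
    clc H (f ≫ g) = clc H (f' ≫ g) := by
  have h1 := cl_comp H (X := a.X) (Y := b.X) (Z := c.X) f g
  have h2 := cl_comp H (X := a.X) (Y := b.X) (Z := c.X) f' g
  unfold clc at h ⊢
  change H.cl (C.comp (X := a.X) (Y := b.X) (Z := c.X) f g) =
    H.cl (C.comp (X := a.X) (Y := b.X) (Z := c.X) f' g)
  rw [h1, h2, h]

lemma clc_comp_right (f : a ⟶ b) {g g' : b ⟶ c} (h : clc H g = clc H g') :
    clc H (f ≫ g) = clc H (f ≫ g') := by
  have h1 := cl_comp H (X := a.X) (Y := b.X) (Z := c.X) f g
  have h2 := cl_comp H (X := a.X) (Y := b.X) (Z := c.X) f g'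
  unfold clc at h ⊢
  change H.cl (C.comp (X := a.X) (Y := b.X) (Z := c.X) f g) =
    H.cl (C.comp (X := a.X) (Y := b.X) (Z := c.X) f g')
  rw [h1, h2, h]

lemma clc_mem {n : ℤ} {f : a ⟶ b} (hf : f ∈ G a b n) :
    clc H f ∈ H.gr (a.X.prod b.X) (2 * (a.X.dim + n)) :=
  H.cl_mem (X := a.X.prod b.X) hf

lemma clc_Fi {n : ℤ} {f : a ⟶ b} (hf : f ∈ Fi a b (n + 1)) :
    clc H f ∈ ⨆ j, ⨆ (_ : j ≠ 2 * ((a.X.dim : ℤ) + n)), H.gr (a.X.prod b.X) j := by
  refine Submodule.iSup_induction (fun i : {i : ℤ // n + 1 ≤ i} => G a b i)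
    (motive := fun f => clc H f ∈ ⨆ j, ⨆ (_ : j ≠ 2 * ((a.X.dim : ℤ) + n)),
      H.gr (a.X.prod b.X) j) hf ?_ ?_ ?_
  · intro i f hf
    refine (le_iSup₂ (f := fun j (_ : j ≠ 2 * ((a.X.dim : ℤ) + n)) => H.gr (a.X.prod b.X) j)
      (2 * (a.X.dim + i.1)) ?_) (clc_mem H hf)
    have := i.2
    omega
  · rw [clc_zero]
    exact Submodule.zero_mem _
  · intro f g hf hg
    rw [clc_add]
    exact Submodule.add_mem _ hf hg

/-- The leading component of a homologically trivial correspondence is homologically trivial. -/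
lemma clc_lead {n : ℤ} {f f₀ : a ⟶ b} (h0 : f₀ ∈ G a b n) (h1 : f - f₀ ∈ Fi a b (n + 1))
    (h : clc H f = 0) : clc H f₀ = 0 := by
  have h2 := (H.isInternal (a.X.prod b.X)).submodule_iSupIndep (2 * (a.X.dim + n))
  rw [Submodule.disjoint_def] at h2
  refine h2 _ (clc_mem H h0) ?_
  have h3 := clc_Fi H h1
  rw [clc_sub, h, zero_sub] at h3
  exact (Submodule.neg_mem_iff _).1 h3

end lead

section vanish

variable {X Y : 𝒱.Obj}

lemma act_cl_mulCorr (η : C.A X) (x : H.A X) : H.act (H.cl (C.mulCorr η)) x = H.cl η * x := by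
  rw [TheoryData.mulCorr, H.cl_push]
  exact H.act_mulCorr (H.cl η) x

/-- A correspondence of negative degree which intertwines classes with the hard Lefschetz property
is homologically trivial. -/
lemma vanish (hdim : X.dim = Y.dim) {η : C.A X} {η' : C.A Y} (hη : C.Deg 1 η)
    (hX : HardLefschetz H X η)
    (hY : HardLefschetz H Y η') {r : ℤ} (hr : r < 0) {f : C.A (X.prod Y)}
    (hf : f ∈ C.gr (X.prod Y) (X.dim + r))
    (hc : H.cl (C.comp (C.mulCorr η) f) = H.cl (C.comp f (C.mulCorr η'))) : H.cl f = 0 := by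
  set A := H.actL (H.cl f) with hA
  have hcomm : ∀ x, A (H.cl η * x) = H.cl η' * A x := by
    intro x
    have h := congrArg (fun g => H.act g x) hc
    change H.act (H.cl (C.comp (C.mulCorr η) f)) x = H.act (H.cl (C.comp f (C.mulCorr η'))) x at h
    rw [actH_comp H, actH_comp H, act_cl_mulCorr, act_cl_mulCorr] at h
    exact h
  have hpow : ∀ (j : ℕ) (x), A (H.cl η ^ j * x) = H.cl η' ^ j * A x := by
    intro j
    induction j with
    | zero => intro x; simp
    | succ j ih =>
      intro x
      rw [pow_succ', mul_assoc, hcomm, ih, pow_succ', mul_assoc]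
  have hdeg : ∀ (m : ℤ) (x : H.A X), x ∈ H.gr X m → A x ∈ H.gr Y (m + 2 * r) :=
    fun m x hx => actH_mem H hf hx
  -- degrees at most the dimension
  have low : ∀ (m : ℕ) (j : ℕ), m + j = X.dim → ∀ x ∈ H.gr X m, A x = 0 := by
    intro m
    induction m using Nat.strong_induction_on with
    | _ m ih =>
      intro j hj x hx
      -- the decomposition
      have h1 : H.cl η ^ (j + 1) * x ∈ H.gr X (X.dim + ((j + 2 : ℕ) : ℤ)) := by
        have h2 : ∀ i : ℕ, H.cl η ^ i * x ∈ H.gr X (m + 2 * i) := by
          intro i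
          induction i with
          | zero => simpa using hx
          | succ i ih =>
            have h3 := H.mul_mem (H.cl_mem hη) ih
            rw [← mul_assoc, ← pow_succ'] at h3
            convert h3 using 2
            push_cast
            ring
        have h3 := h2 (j + 1)
        convert h3 using 2
        push_cast
        omega
      obtain ⟨y, hy, hyx⟩ := hX.surj (j + 2) _ h1
      have hyx' : H.cl η ^ (j + 2) * y = H.cl η ^ (j + 1) * x := hyx
      have hyA : A y = 0 := by
        by_cases h2 : 2 ≤ m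
        · refine ih (m - 2) (by omega) (j + 2) (by omega) y ?_
          convert hy using 2
          push_cast
          omega
        · have h3 : y ∈ H.gr X ((X.dim : ℤ) - ((j + 2 : ℕ) : ℤ)) := hy
          rw [H.gr_neg X _ (by push_cast; omega), Submodule.mem_bot] at h3
          rw [h3, map_zero]
      have hprim : A (x - H.cl η * y) = 0 := by
        have h3 : H.cl η ^ (j + 1) * (x - H.cl η * y) = 0 := by
          rw [mul_sub, ← mul_assoc, ← pow_succ, sub_eq_zero]
          exact hyx'.symm
        have h4 := congrArg A h3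
        rw [hpow, map_zero] at h4
        obtain ⟨s, hs⟩ : ∃ s : ℕ, r = -(s : ℤ) - 1 := ⟨(-r - 1).toNat, by omega⟩
        have h5 : H.cl η' ^ (j + 2 * (s + 1)) * A (x - H.cl η * y) = 0 := by
          rw [show j + 2 * (s + 1) = (2 * s + 1) + (j + 1) by ring, pow_add, mul_assoc, h4,
            mul_zero]
        refine hY.inj (j + 2 * (s + 1)) _ ?_ h5
        have h6 : x - H.cl η * y ∈ H.gr X m := by
          refine Submodule.sub_mem _ hx ?_
          have h7 := H.mul_mem (H.cl_mem hη) hy
          convert h7 using 2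
          push_cast
          omega
        have h8 := hdeg m _ h6
        convert h8 using 2
        push_cast
        omega
      have h9 : A x = A (x - H.cl η * y) + H.cl η' * A y := by
        rw [← hcomm, ← map_add, sub_add_cancel]
      rw [h9, hprim, hyA, mul_zero, add_zero]
  have all : ∀ (m : ℤ) (x : H.A X), x ∈ H.gr X m → A x = 0 := by
    intro m x hx
    rcases lt_or_ge m 0 with h1 | h1
    · rw [H.gr_neg X _ h1, Submodule.mem_bot] at hx
      rw [hx, map_zero]
    · rcases le_or_gt m X.dim with h2 | h2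
      · exact low m.toNat (X.dim - m).toNat (by omega) x (by
          convert hx using 2
          omega)
      · obtain ⟨y, hy, hyx⟩ := hX.surj (m - X.dim).toNat x (by
          change x ∈ H.gr X _
          convert hx using 2
          omega)
        have hyx' : H.cl η ^ (m - X.dim).toNat * y = x := hyx
        rw [← hyx', hpow]
        have h3 : A y = 0 := by
          rcases lt_or_ge (2 * (X.dim : ℤ) - m) 0 with h4 | h4
          · have h5 : y ∈ H.gr X _ := hy
            rw [H.gr_neg X _ (by omega), Submodule.mem_bot] at h5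
            rw [h5, map_zero]
          · refine low (2 * (X.dim : ℤ) - m).toNat (m - X.dim).toNat (by omega) y ?_
            convert hy using 2
            omega
        rw [h3, mul_zero]
  apply hom_zero_of_act H
  intro x
  have h := ext_gr H A 0 (fun m x hx => by rw [all m x hx, LinearMap.zero_apply])
  exact LinearMap.congr_fun h x

end vanish

end Pool.Agent.Q94.OL
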