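import Pool.Agent.Q94.OL.Lead

/-!
# Isomorphisms of motives from intertwined Lefschetz classes
-/

open CategoryTheory AlgebraicGeometry

universe u v w

set_option linter.unusedSectionVars false

namespace Pool.Agent.Q94.OL

open Pool.Agent.H914 Pool.Agent.H914.VarClass Pool.Agent.H914.VarClass.Obj Pool.Agent.W492.BB
  Pool.Agent.W550.Corr Pool.Agent.TH133 Pool.Agent.Y111.OR

variable {k : Type u} [Field k] {𝒱 : VarClass k} {C : TheoryData.{u, v, 0} 𝒱 ℚ}
  {K : Type w} [Field K] (H : WeilTheoryData.{u, v, w} C K)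

variable [hC : IsChowProj C] [hH : IsWeilProj H]

/-- The powers of a self-correspondence. -/
noncomputable def cpow (C : TheoryData.{u, v, 0} 𝒱 ℚ) {X : 𝒱.Obj} (γ : C.A (X.prod X)) :
    ℕ → C.A (X.prod X)
  | 0 => dg C X
  | m + 1 => C.comp γ (cpow C γ m)

/-- Homologically trivial self-correspondences of degree zero of `X` are nilpotent. -/
def HomNilpotent (X : 𝒱.Obj) : Prop :=
  ∀ γ : C.A (X.prod X), C.Deg X.dim γ → H.cl γ = 0 → ∃ m, cpow C γ m = 0

section filter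

variable {a b : CC C}

/-- The multiplication by a class as a morphism. -/
noncomputable def mc (a : CC C) (η : C.A a.X) : a ⟶ a := C.mulCorr η

lemma mc_mem {a : CC C} {η : C.A a.X} (hη : C.Deg 1 η) : mc a η ∈ G a a 1 := by
  change C.push (Obj.lift (𝟙 a.X) (𝟙 a.X)) η ∈ C.gr (a.X.prod a.X) (a.X.dim + 1)
  have h := C.push_mem (Obj.lift (𝟙 a.X) (𝟙 a.X)) hη
  convert h using 2
  rw [dim_prod]
  push_cast
  ring

lemma Fi_low (a b : CC C) : Fi a b (-(a.X.dim : ℤ)) = ⊤ := by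
  rw [eq_top_iff, ← G_iSup a b]
  refine iSup_le fun n => ?_
  rcases lt_or_ge n (-(a.X.dim : ℤ)) with h | h
  · change C.gr (a.X.prod b.X) (a.X.dim + n) ≤ _
    rw [C.gr_neg _ _ (by omega)]
    exact bot_le
  · exact G_le a b h

/-- A correspondence which intertwines classes with the hard Lefschetz property is homologically
equivalent to one with components of nonnegative degrees. -/
lemma filter (hdim : a.X.dim = b.X.dim) {η : C.A a.X} {η' : C.A b.X} (hη : C.Deg 1 η)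
    (hη' : C.Deg 1 η') (hX : HardLefschetz H a.X η) (hY : HardLefschetz H b.X η') {f : a ⟶ b}
    (hc : clc H (mc a η ≫ f) = clc H (f ≫ mc b η')) :
    ∀ (s r : ℕ), s + r = a.X.dim → ∃ g ∈ Fi a b (-(r : ℤ)), clc H g = clc H f := by
  intro s
  induction s with
  | zero =>
    intro r hr
    rw [zero_add] at hr
    subst hr
    refine ⟨f, ?_, rfl⟩
    rw [Fi_low]
    trivial
  | succ s ih =>
    intro r hr
    obtain ⟨g, hg, hgf⟩ := ih (r + 1) (by omega)
    obtain ⟨g₀, h0, h1⟩ := Fi_succ hg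
    have e1 : -((r + 1 : ℕ) : ℤ) + 1 = -(r : ℤ) := by push_cast; ring
    rw [e1] at h1
    refine ⟨g - g₀, h1, ?_⟩
    have hD : clc H (mc a η ≫ g - g ≫ mc b η') = 0 := by
      rw [clc_sub, clc_comp_right H (mc a η) hgf, clc_comp_left H hgf, hc, sub_self]
    have hD0 : mc a η ≫ g₀ - g₀ ≫ mc b η' ∈ G a b (-(r : ℤ)) := by
      refine Submodule.sub_mem _ ?_ ?_
      · have := G_comp (mc_mem hη) h0
        convert this using 2
        push_cast
        ring
      · have := G_comp h0 (mc_mem hη')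
        convert this using 2
        push_cast
        ring
    have hD1 : (mc a η ≫ g - g ≫ mc b η') - (mc a η ≫ g₀ - g₀ ≫ mc b η') ∈
        Fi a b (-(r : ℤ) + 1) := by
      have e2 : (mc a η ≫ g - g ≫ mc b η') - (mc a η ≫ g₀ - g₀ ≫ mc b η') =
          mc a η ≫ (g - g₀) - (g - g₀) ≫ mc b η' := by
        rw [Preadditive.comp_sub, Preadditive.sub_comp]
        abel
      rw [e2]
      refine Submodule.sub_mem _ ?_ ?_
      · have := Fi_comp (G_le a a le_rfl (mc_mem hη)) h1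
        convert this using 2
        ring
      · exact Fi_comp h1 (G_le b b le_rfl (mc_mem hη'))
    have hz := clc_lead H hD0 hD1 hD
    rw [clc_sub, sub_eq_zero] at hz
    have h2 : clc H g₀ = 0 := by
      refine vanish H hdim hη hX hY (r := -((r + 1 : ℕ) : ℤ)) (by push_cast; omega) h0 ?_
      exact hz
    rw [clc_sub, h2, sub_zero, hgf]

/-- The components of degree zero are inverse to each other up to homological equivalence. -/
lemma zero_part {f : a ⟶ b} {g : b ⟶ a} (hg : g ∈ Fi b a 0) {f₀ : a ⟶ b}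
    {g₀ : b ⟶ a} (hf₀ : f₀ ∈ G a b 0) (hf₁ : f - f₀ ∈ Fi a b 1) (hg₀ : g₀ ∈ G b a 0)
    (hg₁ : g - g₀ ∈ Fi b a 1) (h : clc H (f ≫ g) = clc H (𝟙 a)) :
    clc H (f₀ ≫ g₀) = clc H (𝟙 a) := by
  have h1 : (f ≫ g - 𝟙 a) - (f₀ ≫ g₀ - 𝟙 a) = (f - f₀) ≫ g + f₀ ≫ (g - g₀) := by
    rw [Preadditive.sub_comp, Preadditive.comp_sub]
    abel
  have h2 : clc H (f₀ ≫ g₀ - 𝟙 a) = 0 := by
    apply clc_lead H (n := 0) (f := f ≫ g - 𝟙 a)
    · exact Submodule.sub_mem _ (by simpa using G_comp hf₀ hg₀) (id_mem a)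
    · rw [h1]
      refine Submodule.add_mem _ ?_ ?_
      · simpa using Fi_comp hf₁ hg
      · simpa using Fi_comp (G_le a b (le_refl 0) hf₀) hg₁
    · rw [clc_sub, h, sub_self]
  rw [clc_sub, sub_eq_zero] at h2
  exact h2

/-- The component of degree zero intertwines the classes. -/
lemma zero_comm {η : C.A a.X} {η' : C.A b.X} (hη : C.Deg 1 η) (hη' : C.Deg 1 η') {f : a ⟶ b}
    {f₀ : a ⟶ b} (hf₀ : f₀ ∈ G a b 0) (hf₁ : f - f₀ ∈ Fi a b 1)
    (hc : clc H (mc a η ≫ f) = clc H (f ≫ mc b η')) :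
    clc H (mc a η ≫ f₀) = clc H (f₀ ≫ mc b η') := by
  have e2 : (mc a η ≫ f - f ≫ mc b η') - (mc a η ≫ f₀ - f₀ ≫ mc b η') =
      mc a η ≫ (f - f₀) - (f - f₀) ≫ mc b η' := by
    rw [Preadditive.comp_sub, Preadditive.sub_comp]
    abel
  have h : clc H (mc a η ≫ f₀ - f₀ ≫ mc b η') = 0 := by
    refine clc_lead H (n := 1) (f := mc a η ≫ f - f ≫ mc b η') ?_ ?_ ?_
    · exact Submodule.sub_mem _ (by simpa using G_comp (mc_mem hη) hf₀)
        (by simpa using G_comp hf₀ (mc_mem hη'))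
    · rw [e2]
      exact Submodule.sub_mem _ (Fi_comp (G_le a a le_rfl (mc_mem hη)) hf₁)
        (Fi_comp hf₁ (G_le b b le_rfl (mc_mem hη')))
    · rw [clc_sub, hc, sub_self]
  rw [clc_sub, sub_eq_zero] at h
  exact h

end filter

section chow

lemma exists_right {a b : CC C} (hN : HomNilpotent H a.X) {f : a ⟶ b} {g : b ⟶ a}
    (hf : f ∈ G a b 0) (hg : g ∈ G b a 0) (h : clc H (f ≫ g) = clc H (𝟙 a)) :
    ∃ s ∈ G a a 0, (f ≫ g) ≫ s = 𝟙 a ∧ s ≫ (f ≫ g) = 𝟙 a := by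
  set ν : a ⟶ a := 𝟙 a - f ≫ g with hν
  have hν0 : ν ∈ G a a 0 := Submodule.sub_mem _ (id_mem a) (by simpa using G_comp hf hg)
  have hνcl : clc H ν = 0 := by rw [hν, clc_sub, h, sub_self]
  obtain ⟨m, hm⟩ := hN ν (by
    change ν ∈ C.gr (a.X.prod a.X) a.X.dim
    have := hν0
    change ν ∈ C.gr (a.X.prod a.X) (a.X.dim + 0) at this
    rwa [add_zero] at this) hνcl
  -- powers in the endomorphism ring
  let P : ℕ → (a ⟶ a) := fun j => cpow C (X := a.X) ν j
  have hP0 : P 0 = 𝟙 a := rfl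
  have hPs : ∀ j, P (j + 1) = ν ≫ P j := fun j => rfl
  have hPm : P m = 0 := hm
  have hPcomm : ∀ j, P j ≫ ν = ν ≫ P j := by
    intro j
    induction j with
    | zero => rw [hP0, Category.id_comp, Category.comp_id]
    | succ j ih => rw [hPs, Category.assoc, ih]
  have hPG : ∀ j, P j ∈ G a a 0 := by
    intro j
    induction j with
    | zero => exact id_mem a
    | succ j ih => rw [hPs]; simpa using G_comp hν0 ih
  let s : a ⟶ a := ∑ j ∈ Finset.range m, P j
  have hs : s ∈ G a a 0 := Submodule.sum_mem _ fun j _ => hPG j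
  have hfg : f ≫ g = 𝟙 a - ν := by rw [hν]; abel
  have tele : ∀ m, ∑ j ∈ Finset.range m, P j - ν ≫ ∑ j ∈ Finset.range m, P j = 𝟙 a - P m := by
    intro m
    induction m with
    | zero => rw [Finset.sum_range_zero, Limits.comp_zero, hP0]; abel
    | succ m ih =>
      rw [Finset.sum_range_succ, Preadditive.comp_add, ← hPs]
      have : ∑ x ∈ Finset.range m, P x + P m - (ν ≫ ∑ x ∈ Finset.range m, P x + P (m + 1)) =
        (∑ x ∈ Finset.range m, P x - ν ≫ ∑ x ∈ Finset.range m, P x) + P m - P (m + 1) := by abel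
      rw [this, ih]
      abel
  have hcomm : s ≫ ν = ν ≫ s := by
    simp only [s]
    rw [Preadditive.sum_comp, Preadditive.comp_sum]
    exact Finset.sum_congr rfl fun j _ => hPcomm j
  have h1 : s - ν ≫ s = 𝟙 a := by
    have := tele m
    rw [hPm, sub_zero] at this
    exact this
  refine ⟨s, hs, ?_, ?_⟩
  · rw [hfg, Preadditive.sub_comp, Category.id_comp, h1]
  · rw [hfg, Preadditive.comp_sub, Category.comp_id, hcomm, h1]

/-- Isomorphisms up to homological equivalence lift. -/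
lemma lift_iso {a b : CC C} (ha : HomNilpotent H a.X) (hb : HomNilpotent H b.X) {f : a ⟶ b}
    {g : b ⟶ a} (hf : f ∈ G a b 0) (hg : g ∈ G b a 0) (h : clc H (f ≫ g) = clc H (𝟙 a))
    (h' : clc H (g ≫ f) = clc H (𝟙 b)) :
    ∃ g' ∈ G b a 0, f ≫ g' = 𝟙 a ∧ g' ≫ f = 𝟙 b ∧ clc H g' = clc H g := by
  obtain ⟨s, hs, h1, -⟩ := exists_right H ha hf hg h
  obtain ⟨t, ht, -, h2⟩ := exists_right H hb hg hf h'
  have e1 : f ≫ (g ≫ s) = 𝟙 a := by rw [← Category.assoc, h1]
  have e2 : (t ≫ g) ≫ f = 𝟙 b := by rw [Category.assoc, h2]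
  have e3 : g ≫ s = t ≫ g := by
    have : (t ≫ g) ≫ f ≫ (g ≫ s) = g ≫ s := by
      rw [← Category.assoc, e2, Category.id_comp]
    rw [← this, e1, Category.comp_id]
  refine ⟨g ≫ s, by simpa using G_comp hg hs, e1, by rw [e3, e2], ?_⟩
  -- the class
  have h3 : clc H (f ≫ (g ≫ s)) = clc H (f ≫ g) := by rw [e1, h]
  have h4 := clc_comp_right H g h3
  have h5 : clc H (g ≫ (f ≫ (g ≫ s))) = clc H (g ≫ s) := by
    have h6 := clc_comp_left H h' (g ≫ s)
    rw [Category.id_comp] at h6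
    rw [← h6, Category.assoc]
  have h7 : clc H (g ≫ (f ≫ g)) = clc H g := by
    have h8 := clc_comp_left H h' g
    rw [Category.id_comp] at h8
    rw [← h8, Category.assoc]
  rw [← h5, h4, h7]

end chow

/-- The main theorem. -/
theorem main {X X' : 𝒱.Obj} (hdim : X.dim = X'.dim) {η : C.A X} {η' : C.A X'} (hη : C.Deg 1 η)
    (hη' : C.Deg 1 η') (hX : HardLefschetz H X η) (hX' : HardLefschetz H X' η')
    {v : C.A (X.prod X')} {w : C.A (X'.prod X)} (hvw : C.comp v w = dg C X)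
    (hwv : C.comp w v = dg C X')
    (hc : H.cl (C.comp (C.mulCorr η) v) = H.cl (C.comp v (C.mulCorr η'))) :
    ∃ (Z : C.A (X.prod X')) (Z' : C.A (X'.prod X)), C.Deg X.dim Z ∧ C.Deg X.dim Z' ∧
      (∃ u ∈ ⨆ i : {i : ℤ // (X.dim : ℤ) + 1 ≤ i}, C.gr (X.prod X') i,
        H.cl v = H.cl Z + H.cl u) ∧
      H.cl (C.comp Z Z') = H.cl (dg C X) ∧ H.cl (C.comp Z' Z) = H.cl (dg C X') ∧
      H.cl (C.comp (C.mulCorr η) Z) = H.cl (C.comp Z (C.mulCorr η')) ∧
      (HomNilpotent H X → HomNilpotent H X' → ∃ Z'' : C.A (X'.prod X), C.Deg X.dim Z'' ∧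
        C.comp Z Z'' = dg C X ∧ C.comp Z'' Z = dg C X' ∧ H.cl Z'' = H.cl Z') := by
  let a : CC C := ⟨X⟩
  let b : CC C := ⟨X'⟩
  let f : a ⟶ b := v
  let g : b ⟶ a := w
  have hfg : f ≫ g = 𝟙 a := hvw
  have hgf : g ≫ f = 𝟙 b := hwv
  have hc1 : clc H (mc a η ≫ f) = clc H (f ≫ mc b η') := hc
  have hc2 : clc H (mc b η' ≫ g) = clc H (g ≫ mc a η) := by
    have h1 := clc_comp_right H g (clc_comp_left H hc1 g)
    have e1 : g ≫ ((mc a η ≫ f) ≫ g) = g ≫ mc a η := by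
      rw [Category.assoc, hfg, Category.comp_id]
    have e2 : g ≫ ((f ≫ mc b η') ≫ g) = mc b η' ≫ g := by
      rw [Category.assoc, ← Category.assoc g f, hgf, Category.id_comp]
    rw [e1, e2] at h1
    exact h1.symm
  obtain ⟨f', hf', hff⟩ := filter H hdim hη hη' hX hX' hc1 a.X.dim 0 (add_zero _)
  obtain ⟨g', hg', hgg⟩ := filter H hdim.symm hη' hη hX' hX hc2 b.X.dim 0 (add_zero _)
  rw [Nat.cast_zero, neg_zero] at hf' hg'
  obtain ⟨f₀, hf₀, hf₁⟩ := Fi_succ hf'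
  obtain ⟨g₀, hg₀, hg₁⟩ := Fi_succ hg'
  rw [zero_add] at hf₁ hg₁
  have e1 : clc H (f' ≫ g') = clc H (𝟙 a) := by
    rw [clc_comp_left H hff, clc_comp_right H f hgg, hfg]
  have e2 : clc H (g' ≫ f') = clc H (𝟙 b) := by
    rw [clc_comp_left H hgg, clc_comp_right H g hff, hgf]
  have z1 := zero_part H hg' hf₀ hf₁ hg₀ hg₁ e1
  have z2 := zero_part H hf' hg₀ hg₁ hf₀ hf₁ e2
  have hc3 : clc H (mc a η ≫ f') = clc H (f' ≫ mc b η') := by
    rw [clc_comp_right H (mc a η) hff, clc_comp_left H hff, hc1]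
  have z3 := zero_comm H hη hη' hf₀ hf₁ hc3
  have d1 : C.Deg X.dim (f₀ : C.A (X.prod X')) := by
    have := hf₀
    change f₀ ∈ C.gr (X.prod X') (X.dim + 0) at this
    rwa [add_zero] at this
  have d2 : C.Deg X.dim (g₀ : C.A (X'.prod X)) := by
    have := hg₀
    change g₀ ∈ C.gr (X'.prod X) (X'.dim + 0) at this
    rw [add_zero, ← hdim] at this
    exact this
  refine ⟨f₀, g₀, d1, d2, ⟨f' - f₀, ?_, ?_⟩, z1, z2, z3, ?_⟩
  · have h1 : Fi a b 1 ≤ ⨆ i : {i : ℤ // (X.dim : ℤ) + 1 ≤ i}, C.gr (X.prod X') i := by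
      refine iSup_le fun i => ?_
      have hi : (X.dim : ℤ) + 1 ≤ X.dim + i.1 := by have := i.2; omega
      exact le_iSup (fun i : {i : ℤ // (X.dim : ℤ) + 1 ≤ i} => C.gr (X.prod X') i)
        ⟨X.dim + i.1, hi⟩
    exact h1 hf₁
  · have h1 : clc H (f₀ + (f' - f₀)) = clc H f := by rw [add_sub_cancel, hff]
    rw [clc_add] at h1
    exact h1.symm
  · intro hNX hNX'
    obtain ⟨g'', hg'', k1, k2, k3⟩ := lift_iso H (a := a) (b := b) hNX hNX' hf₀ hg₀ z1 z2
    refine ⟨g'', ?_, k1, k2, k3⟩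
    have := hg''
    change g'' ∈ C.gr (X'.prod X) (X'.dim + 0) at this
    rw [add_zero, ← hdim] at this
    exact this

end Pool.Agent.Q94.OL
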